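import Mathlib
import Pool.Agent.TH238.T4Out

/-!
MP_e40659_an, Q1 for skew products whose fibre derivatives at the origin are diagonal in one
common linear coordinate system, with eigenvalue moduli in `[C, D]` and `D ^ 4 < C`.
-/

set_option autoImplicit false

namespace Pool.Agent.Results.MP_e40659_an.DiagonalFourthPower

open Filter Topology

/-- `ℂ²` with the Euclidean norm. -/
abbrev V : Type := EuclideanSpace ℂ (Fin 2)

/-- The skew product `F(z₁, w) = (z₁ ^ d, G_{z₁}(w))` on `ℂ × ℂ²`. -/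
def F (d : ℕ) (G : ℂ → V → V) (q : ℂ × V) : ℂ × V := (q.1 ^ d, G q.1 q.2)

/-- The stable manifold of `(p₁, 0)` in the fibre over `p₁`, as a subset of `ℂ²`. -/
def stable (d : ℕ) (G : ℂ → V → V) (p₁ : ℂ) : Set V :=
  {w | Tendsto (fun n => ‖(F d G)^[n] (p₁, w) - (F d G)^[n] (p₁, 0)‖) atTop (𝓝 0)}

/-- `Ω ⊆ ℂ²` is biholomorphic to `ℂ²`: there are an entire injective map with image `Ω` and a
holomorphic inverse on `Ω`. -/
def BiholC2 (Ω : Set V) : Prop :=
  ∃ φ ψ : V → V, Differentiable ℂ φ ∧ DifferentiableOn ℂ ψ Ω ∧ Set.range φ = Ω ∧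
    (∀ z, ψ (φ z) = z) ∧ ∀ w ∈ Ω, φ (ψ w) = w

theorem result (d : ℕ) (G : ℂ → V → V)
    (hG : Differentiable ℂ (fun q : ℂ × V => G q.1 q.2))
    (hinv : ∀ t : ℂ, ‖t‖ = 1 → ∃ H : V → V, Differentiable ℂ H ∧
      Function.LeftInverse H (G t) ∧ Function.RightInverse H (G t))
    (h0 : ∀ t : ℂ, ‖t‖ = 1 → G t 0 = 0)
    (P : V ≃L[ℂ] ℂ × ℂ) (C D : ℝ) (hC : 0 < C) (hD : D < 1) (hCD : D ^ 4 < C)
    (hdiag : ∀ t : ℂ, ‖t‖ = 1 → ∃ a b : ℂ, (C ≤ ‖a‖ ∧ ‖a‖ ≤ D) ∧ (C ≤ ‖b‖ ∧ ‖b‖ ≤ D) ∧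
      ∀ v : V, P (fderiv ℂ (G t) 0 v) = (a * (P v).1, b * (P v).2))
    (p₁ : ℂ) (hp : ‖p₁‖ = 1) : BiholC2 (stable d G p₁) := by
  set t : ℕ → ℂ := fun n => p₁ ^ d ^ n with ht
  have ht1 : ∀ n, ‖t n‖ = 1 := fun n => by simp [ht, hp]
  choose a b ha hb hab using fun n => hdiag (t n) (ht1 n)
  choose H hH hl hr using fun n => hinv (t n) (ht1 n)
  -- a uniform bound on the unit ball
  obtain ⟨B, hB⟩ : ∃ B : ℝ, ∀ n (z : V), ‖z‖ < 1 → ‖G (t n) z‖ ≤ B := by
    have hK : IsCompact (Metric.sphere (0 : ℂ) 1 ×ˢ Metric.closedBall (0 : V) 1) :=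
      (isCompact_sphere _ _).prod (isCompact_closedBall _ _)
    obtain ⟨B, hB⟩ := hK.exists_bound_of_continuousOn hG.continuous.continuousOn
    refine ⟨B, fun n z hz => hB (t n, z) ⟨?_, ?_⟩⟩
    · simpa using ht1 n
    · simpa using hz.le
  have hGt : ∀ n, Differentiable ℂ (G (t n)) := fun n =>
    hG.comp ((differentiable_const (t n)).prodMk differentiable_id)
  obtain ⟨-, φ, ψ, d1, d2, hra, e1, e2⟩ := Pool.Agent.TH238.main_lin P
    (f := fun n => G (t n)) (g := H) (a := a) (b := b) (B := B) (R := 1)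
    hGt hH (fun n z => hl n z) (fun n z => hr n z) hC hD hCD ha hb one_pos
    (fun n => h0 (t n) (ht1 n)) (fun n v => hab n v) hB
  have horb : ∀ (w : V) (n : ℕ), (F d G)^[n] (p₁, w) =
      (t n, Pool.Agent.TH238.orb (fun n => G (t n)) n w) := by
    intro w n
    induction n with
    | zero => simp [ht, Pool.Agent.TH238.orb]
    | succ n ih =>
      rw [Function.iterate_succ_apply', ih]
      refine Prod.ext ?_ rfl
      simp only [F, ht]
      rw [← pow_mul, ← pow_succ]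
  have horb0 : ∀ n, Pool.Agent.TH238.orb (fun n => G (t n)) n 0 = 0 := by
    intro n
    induction n with
    | zero => rfl
    | succ n ih =>
      change G (t n) (Pool.Agent.TH238.orb (fun n => G (t n)) n 0) = 0
      rw [ih]
      exact h0 _ (ht1 n)
  have hset : stable d G p₁ =
      {z | Tendsto (fun n => Pool.Agent.TH238.orb (fun n => G (t n)) n z) atTop (𝓝 0)} := by
    ext w
    have h1 : ∀ n, ‖(F d G)^[n] (p₁, w) - (F d G)^[n] (p₁, 0)‖ =
        ‖Pool.Agent.TH238.orb (fun n => G (t n)) n w‖ := by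
      intro n
      rw [horb, horb, horb0, Prod.mk_sub_mk, sub_self, sub_zero, Prod.norm_mk, norm_zero]
      exact max_eq_right (norm_nonneg _)
    simp only [stable, Set.mem_ofPred_eq, h1]
    exact tendsto_zero_iff_norm_tendsto_zero.symm
  refine ⟨φ, ψ, d1, ?_, ?_, e1, ?_⟩
  · rw [hset]; exact d2
  · rw [hset]; exact hra
  · rw [hset]; exact e2

end Pool.Agent.Results.MP_e40659_an.DiagonalFourthPower
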